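import Pool.Agent.Helper62.EX.TB
import Pool.Agent.Helper36.EX.DL

/-!
# MP_2857a5_co : module PK, six items with many marks
-/

set_option autoImplicit false

open Finset
open scoped Classical

namespace OT

noncomputable section

variable {n : ℕ}

/-- The statement of the descending lemma. -/
def pk_Descend : Prop := ∀ (n Δ : ℕ) (T : PTree n) (_ : T.Deg Δ) (g : Fin n → ℤ)
    (_ : ∀ v, |g v| ≤ 1)
    (pos far : Fin n → Bool) (Z : Finset (Fin n)) (_ : T.Alt pos far Z) (β : Bool) (z : Fin n)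
    (θ : ℤ) (_ : θ ≤ ∑ x ∈ T.sub z, g x) (_ : 4 * ((Δ : ℤ) + 1) ^ 2 * (Z.card + 1) ≤ θ),
    ∃ b : Bool, ∃ t ∈ T.sub z, t ∉ Z ∧ (b = false → t ≠ z ∧ pos t = β) ∧
      (∀ c ∈ T.tops far b t, ∑ x ∈ T.sub c, g x ≤ θ) ∧
      θ ≤ 2 * ((Δ : ℤ) + 1) ^ 2 * (Z.card + 1) * ∑ x ∈ T.item far b t, g x

/-- The union of the first `k` items. -/
def pk_un (T : PTree n) (far : Fin n → Bool) (b : ℕ → Bool) (t : ℕ → Fin n) (k : ℕ) :
    Finset (Fin n) := (Finset.range k).biUnion fun i => T.item far (b i) (t i)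

/-- The state after `k` steps. -/
structure pk_St (T : PTree n) (pos far : Fin n → Bool) (R Δ : ℕ) (M : Finset (Fin n)) (η' : ℝ)
    (θ : ℤ) (b : ℕ → Bool) (t : ℕ → Fin n) (k : ℕ) : Prop where
  sep : ∀ i < k, ∀ j < k, i ≠ j → t j ∉ T.ball R (t i)
  root : ∀ i < k, ∀ z : Fin n, (z : ℕ) = 0 → t i ∉ T.ball R z
  pos : ∀ i < k, b i = false → pos (t i) = decide (3 ≤ i)
  new : ∀ j < k, ∀ i < j, t j ∉ T.item far (b i) (t i)
  mass : ∀ j < k, η' * (n : ℝ) ≤ ((M ∩ (T.item far (b j) (t j) \ pk_un T far b t j)).card : ℝ)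
  upper : ∀ j < k, ((M ∩ (T.item far (b j) (t j) \ pk_un T far b t j)).card : ℤ) ≤
    ((Δ : ℤ) + 1) * θ

theorem pk_un_succ (T : PTree n) (far : Fin n → Bool) (b : ℕ → Bool) (t : ℕ → Fin n) (k : ℕ) :
    pk_un T far b t (k + 1) = pk_un T far b t k ∪ T.item far (b k) (t k) := by
  unfold pk_un
  rw [Finset.range_add_one, Finset.biUnion_insert, Finset.union_comm]

theorem pk_un_congr (T : PTree n) (far : Fin n → Bool) {b b' : ℕ → Bool} {t t' : ℕ → Fin n}
    (k : ℕ) (hb : ∀ i < k, b i = b' i) (ht : ∀ i < k, t i = t' i) :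
    pk_un T far b t k = pk_un T far b' t' k := by
  unfold pk_un
  refine Finset.biUnion_congr rfl fun i hi => ?_
  rw [Finset.mem_range] at hi
  rw [hb i hi, ht i hi]

theorem pk_rest {T : PTree n} {pos far : Fin n → Bool} {R Δ : ℕ} {M : Finset (Fin n)} {η' : ℝ}
    {θ : ℤ} {b : ℕ → Bool} {t : ℕ → Fin n} {k : ℕ} (h : pk_St T pos far R Δ M η' θ b t k)
    (j : ℕ) (hj : j ≤ k) :
    (M.card : ℤ) ≤ ((M \ pk_un T far b t j).card : ℤ) + j * (((Δ : ℤ) + 1) * θ) := by
  induction j with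
  | zero => simp [pk_un]
  | succ j ih =>
    have h1 := ih (by omega)
    have h2 := h.upper j (by omega)
    have h3 : M \ pk_un T far b t j ⊆ (M \ pk_un T far b t (j + 1)) ∪
        (M ∩ (T.item far (b j) (t j) \ pk_un T far b t j)) := by
      intro x hx
      rw [pk_un_succ]
      simp only [Finset.mem_sdiff, Finset.mem_union, Finset.mem_inter] at hx ⊢
      by_cases hx2 : x ∈ T.item far (b j) (t j)
      · exact Or.inr ⟨hx.1, hx2, hx.2⟩
      · exact Or.inl ⟨hx.1, fun h => h.elim hx.2 hx2⟩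
    have h4 := (Finset.card_le_card h3).trans (Finset.card_union_le _ _)
    push_cast
    have h5 : ((M \ pk_un T far b t j).card : ℤ) ≤ ((M \ pk_un T far b t (j + 1)).card : ℤ) +
        ((M ∩ (T.item far (b j) (t j) \ pk_un T far b t j)).card : ℤ) := by exact_mod_cast h4
    linarith

theorem pk_item_sub (T : PTree n) (far : Fin n → Bool) (b : Bool) (t : Fin n) :
    T.item far b t ⊆ T.sub t := by
  intro x hx
  unfold PTree.item at hx
  rw [Finset.mem_biUnion] at hx
  obtain ⟨c, hc, hx⟩ := hx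
  rw [PTree.mem_sub] at hx ⊢
  unfold PTree.tops at hc
  split_ifs at hc with hb
  · unfold PTree.far PTree.ch at hc
    simp only [Finset.mem_filter, Finset.mem_univ, true_and] at hc
    refine PTree.Le.trans ?_ hx
    rw [PTree.le_iff]
    right
    refine ⟨hc.1.1, ?_⟩
    rw [hc.1.2]
    exact PTree.Le.refl T t
  · rw [Finset.mem_singleton] at hc
    rw [hc] at hx
    exact hx

theorem pk_item_closed (T : PTree n) (far : Fin n → Bool) (b : Bool) (t : Fin n) {v : Fin n}
    (hv : v ∈ T.item far b t) : T.sub v ⊆ T.item far b t := by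
  intro x hx
  unfold PTree.item at hv ⊢
  rw [Finset.mem_biUnion] at hv ⊢
  obtain ⟨c, hc, hv⟩ := hv
  refine ⟨c, hc, ?_⟩
  rw [PTree.mem_sub] at hx hv ⊢
  exact hv.trans hx

theorem pk_tops_card {Δ : ℕ} (T : PTree n) (hΔ : T.Deg Δ) (far : Fin n → Bool) (b : Bool)
    (t : Fin n) : (T.tops far b t).card ≤ Δ + 1 := by
  unfold PTree.tops
  split_ifs
  · have h1 : (T.far far t).card ≤ (T.ch t).card := Finset.card_filter_le _ _
    have h2 : (T.ch t).card ≤ Δ := hΔ t
    omega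
  · simp

/-- One step. -/
theorem pk_step (hD : pk_Descend) {T : PTree n} {pos far : Fin n → Bool} {R Δ : ℕ}
    (hΔ : T.Deg Δ) (hA : T.Alt pos far ∅) {M : Finset (Fin n)} {η' : ℝ}
    {θ : ℤ} (hθ : 0 ≤ θ) {b : ℕ → Bool} {t : ℕ → Fin n} {k : ℕ}
    (h : pk_St T pos far R Δ M η' θ b t k) (hn : 0 < n)
    (hM : θ + k * (((Δ : ℤ) + 1) * θ) ≤ (M.card : ℤ))
    (hθ2 : 4 * ((Δ : ℤ) + 1) ^ 2 * ((((k + 1) * (Δ + 2) ^ R : ℕ) : ℤ) + 1) ≤ θ)
    (hη : 0 < η')
    (hθ3 : 2 * ((Δ : ℝ) + 1) ^ 2 * ((((k + 1) * (Δ + 2) ^ R : ℕ) : ℝ) + 1) * (η' * n) ≤ (θ : ℝ)) :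
    ∃ (b' : ℕ → Bool) (t' : ℕ → Fin n), pk_St T pos far R Δ M η' θ b' t' (k + 1) := by
  classical
  set z : Fin n := ⟨0, hn⟩ with hz
  set Z : Finset (Fin n) := T.ball R z ∪ (Finset.range k).biUnion fun i => T.ball R (t i) with hZ
  have hZcard : Z.card ≤ (k + 1) * (Δ + 2) ^ R := by
    have h1 : Z.card ≤ (T.ball R z).card +
        ((Finset.range k).biUnion fun i => T.ball R (t i)).card := Finset.card_union_le _ _
    have h2 : ((Finset.range k).biUnion fun i => T.ball R (t i)).card ≤ k * (Δ + 2) ^ R := by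
      refine Finset.card_biUnion_le.trans ?_
      refine (Finset.sum_le_card_nsmul _ _ ((Δ + 2) ^ R) fun i _ => T.card_ball hΔ R (t i)).trans ?_
      simp
    have h3 := T.card_ball hΔ R z
    rw [add_mul, one_mul]
    omega
  set U := pk_un T far b t k with hU
  set g : Fin n → ℤ := fun v => if v ∈ M \ U then 1 else 0 with hg
  have hg1 : ∀ v, |g v| ≤ 1 := by
    intro v
    simp only [hg]
    split_ifs <;> simp
  have hsum : ∀ S : Finset (Fin n), ∑ x ∈ S, g x = ((M ∩ (S \ U)).card : ℤ) := by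
    intro S
    simp only [hg]
    rw [Finset.sum_ite_mem]
    simp only [Finset.sum_const, nsmul_eq_mul, mul_one]
    congr 2
    ext x
    simp only [Finset.mem_inter, Finset.mem_sdiff]
    tauto
  have hsub : T.sub z = univ := by
    ext x
    simp only [Finset.mem_univ, iff_true]
    rw [PTree.mem_sub]
    exact T.le_root z rfl x
  have h1 : θ ≤ ∑ x ∈ T.sub z, g x := by
    rw [hsum, hsub]
    have h2 := pk_rest h k le_rfl
    have h3 : M ∩ (univ \ U) = M \ U := by
      ext x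
      simp
    rw [h3]
    rw [← hU] at h2
    linarith
  have hAlt : T.Alt pos far Z := fun v hv _ => hA v hv (Finset.notMem_empty v)
  have hZc' : ((Z.card : ℤ)) + 1 ≤ (((k + 1) * (Δ + 2) ^ R : ℕ) : ℤ) + 1 := by
    have : ((Z.card : ℤ)) ≤ (((k + 1) * (Δ + 2) ^ R : ℕ) : ℤ) := by exact_mod_cast hZcard
    linarith
  have h2 : 4 * ((Δ : ℤ) + 1) ^ 2 * (Z.card + 1) ≤ θ :=
    (mul_le_mul_of_nonneg_left hZc' (by positivity)).trans hθ2
  obtain ⟨b0, t0, ht0, ht0Z, hpos, htop, hmass⟩ := hD n Δ T hΔ g hg1 pos far Z hAlt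
    (decide (3 ≤ k)) z θ h1 h2
  have hmassI := hsum (T.item far b0 t0)
  set W : ℤ := ∑ x ∈ T.item far b0 t0, g x with hW
  have hW0 : 0 ≤ W := by rw [hmassI]; positivity
  -- lower bound of the mass
  have hWlow : η' * (n : ℝ) ≤ (W : ℝ) := by
    have hc : (0 : ℝ) < 2 * ((Δ : ℝ) + 1) ^ 2 * ((((k + 1) * (Δ + 2) ^ R : ℕ) : ℝ) + 1) := by
      positivity
    have h3 : (θ : ℝ) ≤ 2 * ((Δ : ℝ) + 1) ^ 2 * ((Z.card : ℝ) + 1) * (W : ℝ) := by
      exact_mod_cast hmass
    have h4 : 2 * ((Δ : ℝ) + 1) ^ 2 * ((Z.card : ℝ) + 1) * (W : ℝ) ≤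
        2 * ((Δ : ℝ) + 1) ^ 2 * ((((k + 1) * (Δ + 2) ^ R : ℕ) : ℝ) + 1) * (W : ℝ) := by
      have hW0' : (0 : ℝ) ≤ (W : ℝ) := by exact_mod_cast hW0
      have h5 : (Z.card : ℝ) + 1 ≤ (((k + 1) * (Δ + 2) ^ R : ℕ) : ℝ) + 1 := by
        have : (Z.card : ℝ) ≤ (((k + 1) * (Δ + 2) ^ R : ℕ) : ℝ) := by exact_mod_cast hZcard
        linarith
      exact mul_le_mul_of_nonneg_right (mul_le_mul_of_nonneg_left h5 (by positivity)) hW0'
    exact le_of_mul_le_mul_left (hθ3.trans (h3.trans h4)) hc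
  have hWpos : 0 < W := by
    have : (0 : ℝ) < (W : ℝ) := lt_of_lt_of_le (by positivity) hWlow
    exact_mod_cast this
  -- an element
  have hex : ∃ x, x ∈ M ∩ (T.item far b0 t0 \ U) := by
    rw [← Finset.Nonempty, ← Finset.card_pos]
    have : (0 : ℤ) < ((M ∩ (T.item far b0 t0 \ U)).card : ℤ) := by rw [← hmassI]; exact hWpos
    exact_mod_cast this
  obtain ⟨x, hx⟩ := hex
  rw [Finset.mem_inter, Finset.mem_sdiff] at hx
  have hnew : t0 ∉ U := by
    intro ht
    apply hx.2.2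
    rw [hU, pk_un, Finset.mem_biUnion] at ht ⊢
    obtain ⟨i, hi, ht⟩ := ht
    exact ⟨i, hi, pk_item_closed T far (b i) (t i) ht (pk_item_sub T far b0 t0 hx.2.1)⟩
  -- upper bound of the mass
  have hWup : W ≤ ((Δ : ℤ) + 1) * θ := by
    rw [hW]
    unfold PTree.item
    have h3 : ∑ x ∈ (T.tops far b0 t0).biUnion T.sub, g x ≤
        ∑ c ∈ T.tops far b0 t0, ∑ x ∈ T.sub c, g x := by
      have hgn : ∀ v, 0 ≤ g v := by
        intro v
        simp only [hg]
        split_ifs <;> simp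
      rw [hsum]
      have h4 : ∀ c, ∑ x ∈ T.sub c, g x = ((M ∩ (T.sub c \ U)).card : ℤ) := fun c => hsum _
      simp only [h4]
      have h5 : M ∩ ((T.tops far b0 t0).biUnion T.sub \ U) ⊆
          (T.tops far b0 t0).biUnion fun c => M ∩ (T.sub c \ U) := by
        intro y hy
        simp only [Finset.mem_inter, Finset.mem_sdiff, Finset.mem_biUnion] at hy ⊢
        obtain ⟨hy1, ⟨c, hc, hyc⟩, hy2⟩ := hy
        exact ⟨c, hc, hy1, hyc, hy2⟩
      have h6 := (Finset.card_le_card h5).trans Finset.card_biUnion_le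
      exact_mod_cast h6
    refine h3.trans ?_
    refine (Finset.sum_le_card_nsmul _ _ θ htop).trans ?_
    rw [nsmul_eq_mul]
    refine mul_le_mul_of_nonneg_right ?_ hθ
    have := pk_tops_card T hΔ far b0 t0
    exact_mod_cast this
  -- the new state
  have hb' : ∀ i < k, Function.update b k b0 i = b i := fun i hi =>
    Function.update_of_ne (by omega) _ _
  have ht' : ∀ i < k, Function.update t k t0 i = t i := fun i hi =>
    Function.update_of_ne (by omega) _ _
  have hun : ∀ j ≤ k, pk_un T far (Function.update b k b0) (Function.update t k t0) j =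
      pk_un T far b t j := by
    intro j hj
    exact pk_un_congr T far j (fun i hi => hb' i (by omega)) (fun i hi => ht' i (by omega))
  have hZroot : t0 ∉ T.ball R z := fun h => ht0Z (Finset.mem_union_left _ h)
  have hZt : ∀ i < k, t0 ∉ T.ball R (t i) := by
    intro i hi h
    apply ht0Z
    rw [hZ, Finset.mem_union, Finset.mem_biUnion]
    exact Or.inr ⟨i, Finset.mem_range.2 hi, h⟩
  refine ⟨Function.update b k b0, Function.update t k t0, ?_, ?_, ?_, ?_, ?_, ?_⟩
  · intro i hi j hj hij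
    rcases Nat.lt_succ_iff_lt_or_eq.1 hi with hi | rfl
    · rcases Nat.lt_succ_iff_lt_or_eq.1 hj with hj | rfl
      · rw [ht' i hi, ht' j hj]
        exact h.sep i hi j hj hij
      · rw [ht' i hi, Function.update_self]
        exact hZt i hi
    · rcases Nat.lt_succ_iff_lt_or_eq.1 hj with hj | rfl
      · rw [ht' j hj, Function.update_self]
        intro h'
        exact hZt j hj (PTree.mem_ball_comm.1 h')
      · exact absurd rfl hij
  · intro i hi z' hz'
    have hzz : z' = z := Fin.ext hz'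
    rw [hzz]
    rcases Nat.lt_succ_iff_lt_or_eq.1 hi with hi | rfl
    · rw [ht' i hi]
      exact h.root i hi z rfl
    · rw [Function.update_self]
      exact hZroot
  · intro i hi hbi
    rcases Nat.lt_succ_iff_lt_or_eq.1 hi with hi | rfl
    · rw [hb' i hi] at hbi
      rw [ht' i hi]
      exact h.pos i hi hbi
    · rw [Function.update_self] at hbi ⊢
      exact (hpos hbi).2
  · intro j hj i hi
    rcases Nat.lt_succ_iff_lt_or_eq.1 hj with hj | rfl
    · rw [ht' j hj, ht' i (by omega), hb' i (by omega)]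
      exact h.new j hj i hi
    · rw [ht' i hi, hb' i hi, Function.update_self]
      intro h'
      apply hnew
      rw [hU, pk_un, Finset.mem_biUnion]
      exact ⟨i, Finset.mem_range.2 hi, h'⟩
  · intro j hj
    rcases Nat.lt_succ_iff_lt_or_eq.1 hj with hj | rfl
    · rw [hun j hj.le, ht' j hj, hb' j hj]
      exact h.mass j hj
    · rw [hun j le_rfl, Function.update_self, Function.update_self]
      rw [← hU]
      have : ((M ∩ (T.item far b0 t0 \ U)).card : ℝ) = (W : ℝ) := by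
        exact_mod_cast hmassI.symm
      rw [this]
      exact hWlow
  · intro j hj
    rcases Nat.lt_succ_iff_lt_or_eq.1 hj with hj | rfl
    · rw [hun j hj.le, ht' j hj, hb' j hj]
      exact h.upper j hj
    · rw [hun j le_rfl, Function.update_self, Function.update_self]
      rw [← hU, ← hmassI]
      exact hWup

theorem pk_parts (hD : pk_Descend) (Δ R : ℕ) (η : ℝ) (hη : 0 < η) : ∃ (K : ℕ) (η' : ℝ), 0 < η' ∧
    ∀ (n : ℕ) (T : PTree n), T.Deg Δ → K ≤ n →
    ∀ pos far : Fin n → Bool, T.Alt pos far ∅ →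
    ∀ M : Finset (Fin n), η * (n : ℝ) ≤ (M.card : ℝ) →
    ∃ (b : Fin 6 → Bool) (t : Fin 6 → Fin n), Parts T pos far R M η' b t := by
  classical
  set A : ℝ := ((Δ : ℝ) + 1) with hA
  have hApos : 0 < A := by positivity
  set z0 : ℝ := ((6 * (Δ + 2) ^ R : ℕ) : ℝ) + 1 with hz0
  have hz0pos : 0 < z0 := by positivity
  -- theta is about eta n / (12 A)
  set η' : ℝ := η / (48 * A ^ 3 * z0) with hη'
  have hη'pos : 0 < η' := by positivity
  obtain ⟨K, hK⟩ := exists_nat_ge ((12 * A / η) * (4 * A ^ 2 * z0 + 2))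
  refine ⟨K + 1, η', hη'pos, ?_⟩
  intro n T hΔ hKn pos far hAlt M hM
  have hn : 0 < n := by omega
  set θ : ℤ := ⌊η * n / (12 * A)⌋ with hθ
  have hKn' : (12 * A / η) * (4 * A ^ 2 * z0 + 2) ≤ (n : ℝ) := by
    refine hK.trans ?_
    exact_mod_cast (by omega : K ≤ n)
  have hbig : 4 * A ^ 2 * z0 + 2 ≤ η * n / (12 * A) := by
    rw [le_div_iff₀ (by positivity)]
    have h1 : (12 * A / η) * (4 * A ^ 2 * z0 + 2) * η ≤ (n : ℝ) * η :=
      mul_le_mul_of_nonneg_right hKn' hη.le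
    have h2 : (12 * A / η) * (4 * A ^ 2 * z0 + 2) * η = (4 * A ^ 2 * z0 + 2) * (12 * A) := by
      field_simp
    rw [h2] at h1
    linarith
  have hθup : (θ : ℝ) ≤ η * n / (12 * A) := Int.floor_le _
  have hθlow : η * n / (12 * A) - 1 < (θ : ℝ) := Int.sub_one_lt_floor _
  have hz0' : 0 ≤ 4 * A ^ 2 * z0 := by positivity
  have hθ1 : 4 * A ^ 2 * z0 ≤ (θ : ℝ) := by linarith
  have hθ0 : 0 ≤ θ := by
    have : (0 : ℝ) ≤ (θ : ℝ) := hz0'.trans hθ1
    exact_mod_cast this
  have hθhalf : η * n / (24 * A) ≤ (θ : ℝ) := by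
    have h1 : η * n / (24 * A) = (η * n / (12 * A)) / 2 := by
      field_simp
      ring
    rw [h1]
    linarith
  -- induction
  have key : ∀ k : ℕ, k ≤ 6 → ∃ (b : ℕ → Bool) (t : ℕ → Fin n),
      pk_St T pos far R Δ M η' θ b t k := by
    intro k
    induction k with
    | zero =>
      intro _
      refine ⟨fun _ => false, fun _ => ⟨0, hn⟩, ?_, ?_, ?_, ?_, ?_, ?_⟩
      all_goals
        intro i hi
        exact absurd hi (Nat.not_lt_zero i)
    | succ k ih =>
      intro hk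
      obtain ⟨b, t, hst⟩ := ih (by omega)
      have hkz : ((((k + 1) * (Δ + 2) ^ R : ℕ) : ℝ) + 1) ≤ z0 := by
        rw [hz0]
        have : (k + 1) * (Δ + 2) ^ R ≤ 6 * (Δ + 2) ^ R := Nat.mul_le_mul_right _ (by omega)
        have : (((k + 1) * (Δ + 2) ^ R : ℕ) : ℝ) ≤ ((6 * (Δ + 2) ^ R : ℕ) : ℝ) := by
          exact_mod_cast this
        linarith
      refine pk_step hD hΔ hAlt hθ0 hst hn ?_ ?_ hη'pos ?_
      · -- total mass
        have h1 : (θ : ℝ) + k * (((Δ : ℝ) + 1) * θ) ≤ (M.card : ℝ) := by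
          refine le_trans ?_ hM
          have hk6 : (k : ℝ) ≤ 5 := by exact_mod_cast (by omega : k ≤ 5)
          have hA1 : 1 ≤ A := by rw [hA]; linarith [(Nat.cast_nonneg Δ : (0 : ℝ) ≤ Δ)]
          have hθ0' : (0 : ℝ) ≤ (θ : ℝ) := by exact_mod_cast hθ0
          have h2 : (θ : ℝ) ≤ A * θ := le_mul_of_one_le_left hθ0' hA1
          have h3 : (k : ℝ) * (A * θ) ≤ 5 * (A * θ) :=
            mul_le_mul_of_nonneg_right hk6 (by positivity)
          have h4 : A * (θ : ℝ) ≤ η * n / 12 := by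
            have := mul_le_mul_of_nonneg_left hθup hApos.le
            have h5 : A * (η * n / (12 * A)) = η * n / 12 := by
              field_simp
            rw [h5] at this
            exact this
          have h6 : 0 ≤ η * (n : ℝ) := by positivity
          rw [← hA]
          linarith
        exact_mod_cast h1
      · have h1 : 4 * ((Δ : ℝ) + 1) ^ 2 * ((((k + 1) * (Δ + 2) ^ R : ℕ) : ℝ) + 1) ≤ (θ : ℝ) := by
          refine le_trans ?_ hθ1
          rw [← hA]
          exact mul_le_mul_of_nonneg_left hkz (by positivity)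
        exact_mod_cast h1
      · refine le_trans ?_ hθhalf
        rw [← hA]
        have h1 : 2 * A ^ 2 * ((((k + 1) * (Δ + 2) ^ R : ℕ) : ℝ) + 1) * (η' * n) ≤
            2 * A ^ 2 * z0 * (η' * n) := by
          refine mul_le_mul_of_nonneg_right ?_ (by positivity)
          exact mul_le_mul_of_nonneg_left hkz (by positivity)
        refine h1.trans (le_of_eq ?_)
        rw [hη']
        field_simp
        ring
  obtain ⟨b, t, hst⟩ := key 6 le_rfl
  refine ⟨fun i => b i, fun i => t i, ?_, ?_, ?_, ?_, ?_⟩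
  · intro i j hij
    exact hst.sep i i.2 j j.2 (fun h => hij (Fin.ext h))
  · intro i z hz
    exact hst.root i i.2 z hz
  · intro i hi
    exact hst.pos i i.2 hi
  · intro i j hij
    exact hst.new j j.2 i hij
  · intro j
    have h1 := hst.mass j j.2
    have h2 : pk_un T far b t j = (univ.filter fun i : Fin 6 => i < j).biUnion
        fun i => T.item far (b i) (t i) := by
      unfold pk_un
      ext x
      simp only [Finset.mem_biUnion, Finset.mem_range, Finset.mem_filter, Finset.mem_univ,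
        true_and]
      constructor
      · rintro ⟨i, hi, hx⟩
        exact ⟨⟨i, by omega⟩, Fin.lt_def.2 hi, hx⟩
      · rintro ⟨i, hi, hx⟩
        exact ⟨i, Fin.lt_def.1 hi, hx⟩
    rw [h2] at h1
    exact h1

theorem parts (Δ R : ℕ) (η : ℝ) (hη : 0 < η) : ∃ (K : ℕ) (η' : ℝ), 0 < η' ∧
    ∀ (n : ℕ) (T : PTree n), T.Deg Δ → K ≤ n →
    ∀ pos far : Fin n → Bool, T.Alt pos far ∅ →
    ∀ M : Finset (Fin n), η * (n : ℝ) ≤ (M.card : ℝ) →
    ∃ (b : Fin 6 → Bool) (t : Fin 6 → Fin n), Parts T pos far R M η' b t :=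
  pk_parts (fun _ _ T hΔ g hg pos far Z hZ β z θ h1 h2 =>
    descend T hΔ g hg pos far Z hZ β z θ h1 h2) Δ R η hη

end

end OT
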